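import Pool.Agent.Q162.ST.TREE
import Pool.Agent.Q162.ST.TWO
import Pool.Agent.Q162.ST.HEAVY
import Pool.Agent.Q162.ST.CODE
import Pool.Agent.Q121.ST.THEQ
import Pool.Agent.Q121.ST.CNT
import Pool.Agent.Q14.ST.CUT
import Pool.Agent.Q14.ST.RANK
import Pool.Agent.Q121.ST.FPAR
import Pool.Agent.Q121.ST.MONO
import Pool.Agent.Q164.ST.FAM
import Pool.Agent.Q164.ST.STAR
import Pool.Agent.Q164.ST.SEP
import Pool.Agent.Q164.ST.CORE
import Pool.Agent.Q164.ST.NUM

set_option autoImplicit false

/-!
# Exponentially many isomorphism classes of spanning trees in regular graphs (MP_b146e7_co, Q1)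

For every integer `d ≥ 3` there is `c > 0` such that every connected `d`-regular graph on `n`
vertices has at least `e^(cn)` isomorphism classes of spanning trees; more generally this holds
for all connected graphs with degrees between `3` and `d`.

Proof. (1) There is a spanning tree `T₀` with linearly many leaves (it contains the stars at a
maximal set of vertices with disjoint closed neighbourhoods), and a linear subset `I` of its leaves
has pairwise disjoint closed neighbourhoods in `G`. (2) Let `S` be a large constant and let the core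
`K` consist of the vertices outside `I` with at least `S` descendants outside `I`; the vertices
outside `I` split into clusters, according to the lowest ancestor in `K`, of size at most `dS`.
(3) Every `u ∈ I` has two neighbours `p`, `q` outside `I` and gives a toggle: if they lie in
different clusters, `u` hangs below one or the other; if they are in the same cluster at different
depths, likewise; if they are at the same depth, `u` hangs below `p` and `q` hangs below its old
parent or below `u`. A cut argument selects half of the toggles and a set `J` of core vertices such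
that each toggle changes only one of the clusters of `J`. (4) Inside a cluster the toggles are
switched on in the order of decreasing depth, then the sum of the depths over the cluster strictly
increases with each toggle. So `∏ (m_v + 1)` spanning trees, `m_v` the number of toggles of the
cluster of `v`, have different vectors of depth sums. (5) If two such trees are isomorphic with the
same image of the root and of the core, the depth sums agree. The image of the core is a set
compatible with the parent function of a fixed tree all of whose vertices have at least `S`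
descendants, there are at most `n (d^d)^(n/S)` possibilities, since there are at most `n/S`
vertices with two children having at least `S` descendants each. (6) As the clusters have size at
most `dS`, `∏ (m_v + 1) ≥ (1 + dS)^(ηn/(dS))`, which beats `n (d^d)^(n/S)` for large `S`.
(7) Small graphs: every connected graph of minimum degree 3 has two non-isomorphic spanning trees.
-/

namespace Pool.Agent.Results.MP_b146e7_co.ManySpanningTreeClasses

open Pool.Agent.Q164.ST

/-- The spanning trees of `G`: subgraphs on all the vertices which are trees. -/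
def SpanningTree {V : Type} (G : SimpleGraph V) : Type :=
  {T : SimpleGraph V // T ≤ G ∧ T.IsTree}

/-- Two spanning trees are identified when they are isomorphic as abstract graphs. -/
def isoSetoid {V : Type} (G : SimpleGraph V) : Setoid (SpanningTree G) where
  r S T := Nonempty (S.1 ≃g T.1)
  iseqv :=
    { refl := fun S => ⟨SimpleGraph.Iso.refl⟩
      symm := fun ⟨e⟩ => ⟨e.symm⟩
      trans := fun ⟨e⟩ ⟨e'⟩ => ⟨e.trans e'⟩ }

/-- The number of isomorphism classes of spanning trees of `G`. -/
noncomputable def numClasses {V : Type} (G : SimpleGraph V) : ℕ :=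
  Nat.card (Quotient (isoSetoid G))

theorem finite_spanningTree {V : Type} [Fintype V] (G : SimpleGraph V) :
    Finite (SpanningTree G) := by
  classical
  exact inferInstanceAs (Finite {T : SimpleGraph V // T ≤ G ∧ T.IsTree})

theorem finite_quot {V : Type} [Fintype V] (G : SimpleGraph V) :
    Finite (Quotient (isoSetoid G)) := by
  haveI := finite_spanningTree G
  exact Quotient.finite _

/-- at least two classes -/
theorem two_le_numClasses (hTWO : S_TWO) {V : Type} [Fintype V] (G : SimpleGraph V)
    (hconn : G.Connected) (hdeg3 : ∀ v, 3 ≤ (G.neighborSet v).ncard) : 2 ≤ numClasses G := by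
  classical
  haveI := finite_quot G
  haveI := Fintype.ofFinite (Quotient (isoSetoid G))
  obtain ⟨T, T', h1, h2, h3, h4, h5⟩ := hTWO V G hconn hdeg3
  let A : SpanningTree G := ⟨T, h1, h3⟩
  let B : SpanningTree G := ⟨T', h2, h4⟩
  have hne : Quotient.mk (isoSetoid G) A ≠ Quotient.mk (isoSetoid G) B := by
    intro h
    have h6 : (isoSetoid G).r A B := Quotient.exact h
    obtain ⟨e⟩ := h6
    exact h5.false e
  unfold numClasses
  rw [Nat.card_eq_fintype_card]
  exact Fintype.one_lt_card_iff.2 ⟨_, _, hne⟩

/-- the count -/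
theorem count_classes (hTREE : S_TREE) (hCNT : S_CNT) {V : Type} [Fintype V] (G : SimpleGraph V)
    (d S : ℕ) (hd : 1 ≤ d) (hS : 1 ≤ S) (r : V) (K : Set V) (p : V → V) (m : V → ℕ)
    (F : (V → ℕ) → (V → V)) (hrK : r ∈ K) (hp : IsPar r p) (hpK : ∀ v ∈ K, p v ∈ K)
    (h1 : ∀ x : V → ℕ, (∀ v, x v ≤ m v) → IsPar r (F x) ∧ tr (F x) ≤ G ∧
      (∀ v ∈ K, F x v = p v) ∧ (∀ v ∈ K, S ≤ dsz (F x) v) ∧
      ∀ v, {y : V | y ≠ r ∧ F x y = v}.ncard ≤ d)
    (h2 : ∀ x y : V → ℕ, (∀ v, x v ≤ m v) → (∀ v, y v ≤ m v) → x ≠ y →
      ∃ c, th r K (F x) c ≠ th r K (F y) c) :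
    ∏ v, (m v + 1) ≤ numClasses G * (Fintype.card V * (d ^ d) ^ (Fintype.card V / S)) := by
  classical
  haveI := finite_quot G
  haveI := Fintype.ofFinite (Quotient (isoSetoid G))
  set X : Finset (V → ℕ) := Fintype.piFinset (fun v => Finset.range (m v + 1)) with hX
  have hmem : ∀ x, x ∈ X ↔ ∀ v, x v ≤ m v := by
    intro x
    simp [hX, Fintype.mem_piFinset, Nat.lt_succ_iff]
  have hcard : X.card = ∏ v, (m v + 1) := by
    rw [hX, Fintype.card_piFinset]
    simp
  have hFinj : ∀ x ∈ X, ∀ y ∈ X, F x = F y → x = y := by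
    intro x hx y hy hxy
    by_contra hne
    obtain ⟨c, hc⟩ := h2 x y ((hmem x).1 hx) ((hmem y).1 hy) hne
    exact hc (by rw [hxy])
  let Φ : (V → ℕ) → Option (Quotient (isoSetoid G)) := fun x =>
    if h : ∀ v, x v ≤ m v then
      some (Quotient.mk (isoSetoid G) ⟨tr (F x), (h1 x h).2.1, hTREE V r (F x) (h1 x h).1⟩)
    else none
  have hfib : ∀ b ∈ X.image Φ, (X.filter (fun x => Φ x = b)).card ≤
      Fintype.card V * (d ^ d) ^ (Fintype.card V / S) := by
    intro b hb
    obtain ⟨x₀, hx₀, rfl⟩ := Finset.mem_image.1 hb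
    have hx₀' := (hmem x₀).1 hx₀
    have h3 := hCNT V r K p S d (F '' (X : Set (V → ℕ))) hd hS hrK hp hpK ?_ ?_ (tr (F x₀))
    · refine le_trans ?_ h3
      rw [← Set.ncard_coe_finset]
      refine Set.ncard_le_ncard_of_injOn F ?_ ?_ (Set.toFinite _)
      · intro x hx
        obtain ⟨hxX, hxe⟩ := Finset.mem_filter.1 (Finset.mem_coe.1 hx)
        have hx' := (hmem x).1 hxX
        refine ⟨⟨x, hxX, rfl⟩, ?_⟩
        simp only [Φ] at hxe
        rw [dif_pos hx', dif_pos hx₀'] at hxe
        exact Quotient.exact (Option.some.inj hxe)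
      · intro x hx y hy hxy
        exact hFinj x (Finset.mem_filter.1 (Finset.mem_coe.1 hx)).1 y
          (Finset.mem_filter.1 (Finset.mem_coe.1 hy)).1 hxy
    · rintro _ ⟨x, hx, rfl⟩
      have hx' := (hmem x).1 (Finset.mem_coe.1 hx)
      obtain ⟨h4, _, h5, h6, h7⟩ := h1 x hx'
      exact ⟨h4, h5, h6, h7⟩
    · rintro _ ⟨x, hx, rfl⟩ _ ⟨y, hy, rfl⟩ hne
      exact h2 x y ((hmem x).1 (Finset.mem_coe.1 hx)) ((hmem y).1 (Finset.mem_coe.1 hy))
        (fun h => hne (by rw [h]))
  have h3 : X.card ≤ (Fintype.card V * (d ^ d) ^ (Fintype.card V / S)) * (X.image Φ).card :=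
    Finset.card_le_mul_card_image X _ hfib
  have h4 : (X.image Φ).card ≤ numClasses G := by
    have h5 : X.image Φ ⊆ (Finset.univ : Finset (Quotient (isoSetoid G))).image some := by
      intro b hb
      obtain ⟨x, hx, rfl⟩ := Finset.mem_image.1 hb
      have hx' := (hmem x).1 hx
      simp only [Φ]
      rw [dif_pos hx']
      exact Finset.mem_image_of_mem _ (Finset.mem_univ _)
    refine le_trans (Finset.card_le_card h5) (le_trans Finset.card_image_le ?_)
    unfold numClasses
    rw [Nat.card_eq_fintype_card, Finset.card_univ]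
  rw [← hcard]
  calc X.card ≤ (Fintype.card V * (d ^ d) ^ (Fintype.card V / S)) * (X.image Φ).card := h3
    _ ≤ (Fintype.card V * (d ^ d) ^ (Fintype.card V / S)) * numClasses G :=
        Nat.mul_le_mul_left _ h4
    _ = _ := Nat.mul_comm _ _

theorem main (hTREE : S_TREE) (hTWO : S_TWO) (hCNT : S_CNT) (hSTAR : S_STAR) (hSEP : S_SEP)
    (hNUM : S_NUM) (hFAM : S_FAM) (d : ℕ) (hd : 3 ≤ d) :
    ∃ c : ℝ, 0 < c ∧ ∀ (V : Type) [Fintype V] (G : SimpleGraph V), G.Connected →
      (∀ v, 3 ≤ (G.neighborSet v).ncard ∧ (G.neighborSet v).ncard ≤ d) →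
      Real.exp (c * Fintype.card V) ≤ numClasses G := by
  classical
  obtain ⟨S, n₀, hS, c, hc, hmain⟩ := hNUM d (by omega)
  set N : ℕ := max n₀ (2 * S) + 1 with hN
  have hNpos : (0 : ℝ) < N := by
    rw [hN]; positivity
  have hlog : 0 < Real.log 2 := Real.log_pos (by norm_num)
  refine ⟨min c (Real.log 2 / N), lt_min hc (div_pos hlog hNpos), ?_⟩
  intro V _ G hconn hdeg
  by_cases hV : N ≤ Fintype.card V
  · -- large graphs
    have hn0 : n₀ ≤ Fintype.card V := by
      have := le_max_left n₀ (2 * S)
      omega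
    have h2S : 2 * S ≤ Fintype.card V := by
      have := le_max_right n₀ (2 * S)
      omega
    obtain ⟨A, _, hA, hAcard⟩ := hSEP V G d Finset.univ (fun v => (hdeg v).2)
    obtain ⟨T, hTG, hT, hleaf⟩ := hSTAR V G A hconn (fun v => (hdeg v).1) hA
    set L : Finset V := Finset.univ.filter (fun v => (T.neighborSet v).ncard = 1) with hL
    have hLcard : A.card ≤ L.card := by
      refine le_trans hleaf (le_of_eq ?_)
      rw [← Set.ncard_coe_finset]
      congr 1
      ext v
      simp [hL]
    obtain ⟨I, hIL, hI, hIcard⟩ := hSEP V G d L (fun v => (hdeg v).2)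
    obtain ⟨r, K, p, m, F, h1, h2, h3, h4, h5, h6, h7⟩ := hFAM V G d S I T hS hconn
      (fun v => (hdeg v).1) (fun v => (hdeg v).2) hI hTG hT
      (fun u hu => (Finset.mem_filter.1 (hIL hu)).2) h2S
    have h8 := count_classes hTREE hCNT G d S (by omega) hS r K p m F h1 h2 h3 h6 h7
    have h9 : Fintype.card V ≤ 2 * (1 + d) ^ 4 * ∑ v, m v := by
      rw [Finset.card_univ] at hAcard
      calc Fintype.card V ≤ (1 + d) ^ 2 * A.card := hAcard
        _ ≤ (1 + d) ^ 2 * ((1 + d) ^ 2 * I.card) :=
            Nat.mul_le_mul_left _ (le_trans hLcard hIcard)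
        _ ≤ (1 + d) ^ 2 * ((1 + d) ^ 2 * (2 * ∑ v, m v)) :=
            Nat.mul_le_mul_left _ (Nat.mul_le_mul_left _ h5)
        _ = 2 * (1 + d) ^ 4 * ∑ v, m v := by ring
    have h10 := hmain V m (numClasses G) hn0 h4 h9 h8
    refine le_trans (Real.exp_le_exp.2 ?_) h10
    exact mul_le_mul_of_nonneg_right (min_le_left _ _) (Nat.cast_nonneg _)
  · -- small graphs
    have h1 : 2 ≤ numClasses G := two_le_numClasses hTWO G hconn (fun v => (hdeg v).1)
    have h2 : (Fintype.card V : ℝ) ≤ N := by
      exact_mod_cast (le_of_lt (not_le.1 hV))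
    have h3 : min c (Real.log 2 / N) * Fintype.card V ≤ Real.log 2 := by
      calc min c (Real.log 2 / N) * Fintype.card V ≤ (Real.log 2 / N) * N :=
            mul_le_mul (min_le_right _ _) h2 (Nat.cast_nonneg _) (div_nonneg hlog.le hNpos.le)
        _ = Real.log 2 := by field_simp
    calc Real.exp (min c (Real.log 2 / N) * Fintype.card V) ≤ Real.exp (Real.log 2) :=
          Real.exp_le_exp.2 h3
      _ = 2 := Real.exp_log (by norm_num)
      _ ≤ numClasses G := by exact_mod_cast h1


/-- Every connected `d`-regular graph on `n` vertices, `d ≥ 3`, has at least `e^(cn)` isomorphism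
classes of spanning trees, `c = c(d) > 0`; more generally, every connected graph with all degrees
between `3` and `d`. -/
theorem result : ∀ d : ℕ, 3 ≤ d → ∃ c : ℝ, 0 < c ∧
    (∀ (V : Type) [Fintype V] (G : SimpleGraph V) [DecidableRel G.Adj], G.Connected →
      G.IsRegularOfDegree d → 3 ≤ Fintype.card V →
      Real.exp (c * Fintype.card V) ≤ numClasses G) ∧
    (∀ (V : Type) [Fintype V] (G : SimpleGraph V) [DecidableRel G.Adj], G.Connected →
      (∀ v, 3 ≤ G.degree v ∧ G.degree v ≤ d) →
      Real.exp (c * Fintype.card V) ≤ numClasses G) := by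
  intro d hd
  have hFAM : S_FAM := task_FAM (Pool.Agent.Q162.ST.task_PARE Pool.Agent.Q162.ST.task_TREE) Pool.Agent.Q14.ST.task_CUT Pool.Agent.Q14.ST.task_RANK Pool.Agent.Q121.ST.task_FPAR (Pool.Agent.Q121.ST.task_MONO Pool.Agent.Q121.ST.task_FPAR) task_CORE
  have hCNT : S_CNT := (Pool.Agent.Q121.ST.task_CNT Pool.Agent.Q162.ST.task_RIG Pool.Agent.Q162.ST.task_HEAVY Pool.Agent.Q162.ST.task_CODE Pool.Agent.Q121.ST.task_THEQ)
  obtain ⟨c, hc, h⟩ := main Pool.Agent.Q162.ST.task_TREE (Pool.Agent.Q162.ST.task_TWO Pool.Agent.Q162.ST.task_TREE (Pool.Agent.Q162.ST.task_PARE Pool.Agent.Q162.ST.task_TREE)) hCNT task_STAR task_SEP task_NUM hFAM d hd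
  have hg : ∀ (V : Type) [Fintype V] (G : SimpleGraph V) [DecidableRel G.Adj], G.Connected →
      (∀ v, 3 ≤ G.degree v ∧ G.degree v ≤ d) →
      Real.exp (c * Fintype.card V) ≤ numClasses G := by
    intro V _ G _ hconn hdeg
    apply h V G hconn
    intro v
    have h1 : (G.neighborSet v).ncard = G.degree v := by
      rw [← SimpleGraph.card_neighborSet_eq_degree, Set.ncard_eq_toFinset_card', Set.toFinset_card]
    rw [h1]
    exact hdeg v
  refine ⟨c, hc, ?_, hg⟩
  intro V _ G _ hconn hreg _
  exact hg V G hconn (fun v => by rw [hreg v]; exact ⟨hd, le_rfl⟩)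

end Pool.Agent.Results.MP_b146e7_co.ManySpanningTreeClasses
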